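import Mathlib

/-! Square tables with five rows and five columns, and with four rows and eight columns -/

set_option autoImplicit false

namespace Pool.Agent.Results.MP_79d058_nt.FiveByFive

/-- An `(m, n)`-square table: distinct integers `a i`, distinct integers `b j`, all sums square. -/
def HasTable (m n : ℕ) : Prop :=
  ∃ (a : Fin m → ℤ) (b : Fin n → ℤ), Function.Injective a ∧ Function.Injective b ∧
    ∀ i j, IsSquare (a i + b j)

/-- The roots of a `(5, 5)`-square table. -/
def Q : Fin 5 → Fin 5 → ℤ :=
  ![![23987544, 65516640, 701662080, 752109360, 1112897520],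
    ![140116669, 152806115, 715113245, 764673635, 1121426845],
    ![339902794, 345327290, 779286970, 825001210, 1163399930],
    ![683873960, 686586208, 979508992, 1016256208, 1306005008],
    ![1293605544, 1295041440, 1471451520, 1496164560, 1706276880]]

/-- The roots of a `(4, 8)`-square table. -/
def R : Fin 4 → Fin 8 → ℤ :=
  ![![4198241520, 10333665584, 39094177320, 52630942320, 154257911280, 205256737080, 362000356344, 975892462380],
    ![50466794235, 51342543109, 63699503835, 72796209915, 162249114885, 211328181285, 365477126619, 977187479565],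
    ![167484036720, 167749998416, 171934964520, 175508670480, 227659351920, 264884135880, 398845252344, 990151188180],
    ![817671975120, 817726493584, 818595253080, 819353311920, 832084933680, 843030344520, 894211435656, 1273159821780]]

theorem hasTable_five_five : HasTable 5 5 :=
  ⟨fun i => (Q i 0) ^ 2 - (Q 0 0) ^ 2, fun j => (Q 0 j) ^ 2, by decide, by decide,
    fun i j => ⟨Q i j, by revert i j; decide⟩⟩

theorem hasTable_four_eight : HasTable 4 8 :=
  ⟨fun i => (R i 0) ^ 2 - (R 0 0) ^ 2, fun j => (R 0 j) ^ 2, by decide, by decide,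
    fun i j => ⟨R i j, by revert i j; decide⟩⟩

theorem HasTable.mono {m n m' n' : ℕ} (h : HasTable m n) (hm : m' ≤ m) (hn : n' ≤ n) :
    HasTable m' n' := by
  obtain ⟨a, b, ha, hb, hab⟩ := h
  exact ⟨fun i => a (Fin.castLE hm i), fun j => b (Fin.castLE hn j),
    ha.comp (Fin.castLE_injective hm), hb.comp (Fin.castLE_injective hn), fun i j => hab _ _⟩

theorem HasTable.symm {m n : ℕ} (h : HasTable m n) : HasTable n m := by
  obtain ⟨a, b, ha, hb, hab⟩ := h
  exact ⟨b, a, hb, ha, fun i j => by rw [add_comm]; exact hab j i⟩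

theorem result :
    ∀ m n : ℕ, m ≤ 5 ∧ n ≤ 5 ∨ m ≤ 4 ∧ n ≤ 8 ∨ m ≤ 8 ∧ n ≤ 4 → HasTable m n := by
  rintro m n (⟨hm, hn⟩ | ⟨hm, hn⟩ | ⟨hm, hn⟩)
  · exact hasTable_five_five.mono hm hn
  · exact hasTable_four_eight.mono hm hn
  · exact hasTable_four_eight.symm.mono hm hn

end Pool.Agent.Results.MP_79d058_nt.FiveByFive
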