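import Mathlib

namespace Pool.Agent.Results.MP_79d058_nt.TwoTriples

/-- `p` is the matrix of the roots of a `(4, 4)`-square table. -/
def IsRootTable (p : Fin 4 → Fin 4 → ℕ) : Prop :=
  ∃ a b : Fin 4 → ℤ, Function.Injective a ∧ Function.Injective b ∧
    ∀ i j, a i + b j = (p i j : ℤ) ^ 2

/-- No integer `d > 1` divides all entries of `p`. -/
def Primitive (p : Fin 4 → Fin 4 → ℕ) : Prop :=
  ∀ d : ℕ, (∀ i j, d ∣ p i j) → d = 1

/-- The root matrix attached to two Pythagorean triples `(A, B, C)` and `(X, Y, Z)`. -/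
def T (A B C X Y Z : ℤ) : Fin 4 → Fin 4 → ℤ :=
  ![![A * Z * (A ^ 2 - B ^ 2), A * (C ^ 2 * X - 2 * B ^ 2 * Y), C * X * (A ^ 2 - B ^ 2),
      A * (C ^ 2 * X + 2 * B ^ 2 * Y)],
    ![A * (C ^ 2 * Y + 2 * B ^ 2 * X), 2 * A * B * C * Z, B * (C ^ 2 * X + 2 * A ^ 2 * Y),
      2 * A * B * C * (X + Y)],
    ![C * Y * (A ^ 2 - B ^ 2), B * (2 * A ^ 2 * X - C ^ 2 * Y), B * Z * (A ^ 2 - B ^ 2),
      B * (2 * A ^ 2 * X + C ^ 2 * Y)],
    ![A * (C ^ 2 * Y - 2 * B ^ 2 * X), 2 * A * B * C * (X - Y), B * (C ^ 2 * X - 2 * A ^ 2 * Y),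
      2 * A * B * C * Z]]

/-- The squares of the entries of `T` form an additive table. -/
theorem T_table (A B C X Y Z : ℤ) (h1 : A ^ 2 + B ^ 2 = C ^ 2) (h2 : X ^ 2 + Y ^ 2 = Z ^ 2)
    (i j : Fin 4) :
    (T A B C X Y Z i j) ^ 2 =
      ((T A B C X Y Z i 0) ^ 2 - (T A B C X Y Z 0 0) ^ 2) + (T A B C X Y Z 0 j) ^ 2 := by
  fin_cases i <;> fin_cases j <;>
    simp only [T, Fin.zero_eta, Fin.mk_one, Fin.reduceFinMk, Matrix.cons_val_zero,
      Matrix.cons_val_one, Matrix.cons_val, Fin.isValue, mul_pow, ← h1, ← h2] <;> ring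

/-- Two Pythagorean triples give a `(4, 4)`-square table, as soon as rows and columns differ. -/
theorem T_root (A B C X Y Z : ℤ) (h1 : A ^ 2 + B ^ 2 = C ^ 2) (h2 : X ^ 2 + Y ^ 2 = Z ^ 2)
    (hr : Function.Injective fun i => (T A B C X Y Z i 0) ^ 2)
    (hc : Function.Injective fun j => (T A B C X Y Z 0 j) ^ 2) :
    IsRootTable fun i j => (T A B C X Y Z i j).natAbs := by
  refine ⟨fun i => (T A B C X Y Z i 0) ^ 2 - (T A B C X Y Z 0 0) ^ 2,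
    fun j => (T A B C X Y Z 0 j) ^ 2, ?_, hc, ?_⟩
  · intro i k h
    apply hr
    simp only at h ⊢
    linarith
  · intro i j
    simp only [Int.natCast_natAbs, sq_abs]
    exact (T_table A B C X Y Z h1 h2 i j).symm

/-- `p` is, up to signs and a common factor, the matrix `T` of two Pythagorean triples. -/
def FromTriples (p : Fin 4 → Fin 4 → ℕ) : Prop :=
  ∃ (A B C X Y Z : ℤ) (g : ℕ), A ^ 2 + B ^ 2 = C ^ 2 ∧ X ^ 2 + Y ^ 2 = Z ^ 2 ∧ g ≠ 0 ∧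
    ∀ i j, (T A B C X Y Z i j).natAbs = g * p i j

/-- Dividing out the common factor. -/
theorem exists_primitive (p : Fin 4 → Fin 4 → ℕ) (hp : IsRootTable p) (h0 : p 0 0 ≠ 0) :
    ∃ (q : Fin 4 → Fin 4 → ℕ) (g : ℕ), IsRootTable q ∧ Primitive q ∧ g ≠ 0 ∧
      ∀ i j, p i j = g * q i j := by
  obtain ⟨a, b, ha, hb, hab⟩ := hp
  obtain ⟨q, hq, hg⟩ := Finset.extract_gcd
    (s := (Finset.univ : Finset (Fin 4 × Fin 4))) (fun ij => p ij.1 ij.2)
    ⟨(0, 0), Finset.mem_univ _⟩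
  set g := Finset.gcd (Finset.univ : Finset (Fin 4 × Fin 4)) (fun ij => p ij.1 ij.2) with hgdef
  have hq' : ∀ i j, p i j = g * q (i, j) := fun i j => hq (i, j) (Finset.mem_univ _)
  have hg0 : g ≠ 0 := by
    intro h
    apply h0
    rw [hq' 0 0, h, zero_mul]
  have hgz : ((g : ℤ)) ^ 2 ≠ 0 := by positivity
  have hsq : ∀ i j, (g : ℤ) ^ 2 * (q (i, j) : ℤ) ^ 2 = a i + b j := by
    intro i j
    rw [hab i j, hq' i j]
    push_cast
    ring
  refine ⟨fun i j => q (i, j), g, ⟨fun i => (q (i, 0) : ℤ) ^ 2 - (q (0, 0) : ℤ) ^ 2,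
    fun j => (q (0, j) : ℤ) ^ 2, ?_, ?_, ?_⟩, ?_, hg0, hq'⟩
  · intro i k h
    apply ha
    simp only at h
    have h1 := hsq i 0
    have h2 := hsq k 0
    have h3 : (q (i, 0) : ℤ) ^ 2 = (q (k, 0) : ℤ) ^ 2 := by linarith
    rw [h3] at h1
    linarith
  · intro j k h
    apply hb
    simp only at h
    have h1 := hsq 0 j
    have h2 := hsq 0 k
    rw [h] at h1
    linarith
  · intro i j
    simp only
    apply mul_left_cancel₀ hgz
    have h1 := hsq i 0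
    have h2 := hsq 0 0
    have h3 := hsq 0 j
    have h4 := hsq i j
    linear_combination h1 - h2 + h3 - h4
  · intro d hd
    have : d ∣ Finset.gcd (Finset.univ : Finset (Fin 4 × Fin 4)) q :=
      Finset.dvd_gcd fun ij _ => hd ij.1 ij.2
    rw [hg] at this
    exact Nat.dvd_one.mp this

/-- The members of the family used for infinitude: triples `(4, 3, 5)` and `(n²-1, 2n, n²+1)`. -/
theorem family (k : ℕ) : ∃ q : Fin 4 → Fin 4 → ℕ, (IsRootTable q ∧ Primitive q ∧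
    FromTriples q) ∧ (4 * (((k : ℤ) + 6) ^ 2 + 1)) * (q 0 2 : ℤ) = (5 * (((k : ℤ) + 6) ^ 2 - 1)) * (q 0 0 : ℤ) ∧
    q 0 0 ≠ 0 := by
  set n : ℤ := (k : ℤ) + 6 with hn
  have hn6 : (6 : ℤ) ≤ n := by omega
  have h2 : (n ^ 2 - 1) ^ 2 + (2 * n) ^ 2 = (n ^ 2 + 1) ^ 2 := by ring
  -- entries of the first column and the first row
  have e00 : T 4 3 5 (n ^ 2 - 1) (2 * n) (n ^ 2 + 1) 0 0 = 28 * n ^ 2 + 28 := by
    simp [T]; ring
  have e10 : T 4 3 5 (n ^ 2 - 1) (2 * n) (n ^ 2 + 1) 1 0 = 72 * n ^ 2 + 200 * n - 72 := by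
    simp [T]; ring
  have e20 : T 4 3 5 (n ^ 2 - 1) (2 * n) (n ^ 2 + 1) 2 0 = 70 * n := by
    simp [T]; ring
  have e30 : T 4 3 5 (n ^ 2 - 1) (2 * n) (n ^ 2 + 1) 3 0 = -(72 * n ^ 2 - 200 * n - 72) := by
    simp [T]; ring
  have e01 : T 4 3 5 (n ^ 2 - 1) (2 * n) (n ^ 2 + 1) 0 1 = 100 * n ^ 2 - 144 * n - 100 := by
    simp [T]; ring
  have e02 : T 4 3 5 (n ^ 2 - 1) (2 * n) (n ^ 2 + 1) 0 2 = 35 * n ^ 2 - 35 := by
    simp [T]; ring
  have e03 : T 4 3 5 (n ^ 2 - 1) (2 * n) (n ^ 2 + 1) 0 3 = 100 * n ^ 2 + 144 * n - 100 := by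
    simp [T]; ring
  -- order of the entries
  have b1 : 0 < 70 * n := by linarith
  have b2 : 70 * n < 28 * n ^ 2 + 28 := by nlinarith
  have b3 : 28 * n ^ 2 + 28 < 72 * n ^ 2 - 200 * n - 72 := by nlinarith
  have b4 : 72 * n ^ 2 - 200 * n - 72 < 72 * n ^ 2 + 200 * n - 72 := by linarith
  have c1 : 28 * n ^ 2 + 28 < 35 * n ^ 2 - 35 := by nlinarith
  have c2 : 35 * n ^ 2 - 35 < 100 * n ^ 2 - 144 * n - 100 := by nlinarith
  have c3 : 100 * n ^ 2 - 144 * n - 100 < 100 * n ^ 2 + 144 * n - 100 := by linarith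
  have sqlt : ∀ x y : ℤ, 0 < x → x < y → x ^ 2 < y ^ 2 := fun x y hx hxy => by nlinarith
  have r1 := sqlt _ _ b1 b2
  have r2 := sqlt _ _ (b1.trans b2) b3
  have r3 := sqlt _ _ ((b1.trans b2).trans b3) b4
  have s1 := sqlt _ _ (b1.trans b2) c1
  have s2 := sqlt _ _ ((b1.trans b2).trans c1) c2
  have s3 := sqlt _ _ (((b1.trans b2).trans c1).trans c2) c3
  have hr : Function.Injective fun i => (T 4 3 5 (n ^ 2 - 1) (2 * n) (n ^ 2 + 1) i 0) ^ 2 := by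
    intro i j h
    fin_cases i <;> fin_cases j <;>
      simp only [Fin.zero_eta, Fin.mk_one, Fin.reduceFinMk, e00, e10, e20, e30, neg_sq] at h ⊢ <;>
      exfalso <;> linarith
  have hc : Function.Injective fun j => (T 4 3 5 (n ^ 2 - 1) (2 * n) (n ^ 2 + 1) 0 j) ^ 2 := by
    intro i j h
    fin_cases i <;> fin_cases j <;>
      simp only [Fin.zero_eta, Fin.mk_one, Fin.reduceFinMk, e00, e01, e02, e03] at h ⊢ <;>
      exfalso <;> linarith
  have hT := T_root 4 3 5 _ _ _ (by norm_num) h2 hr hc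
  have h00 : ((T 4 3 5 (n ^ 2 - 1) (2 * n) (n ^ 2 + 1) 0 0).natAbs : ℤ) = 28 * (n ^ 2 + 1) := by
    rw [e00, Int.natCast_natAbs, abs_of_pos (by linarith)]; ring
  have h02 : ((T 4 3 5 (n ^ 2 - 1) (2 * n) (n ^ 2 + 1) 0 2).natAbs : ℤ) = 35 * (n ^ 2 - 1) := by
    rw [e02, Int.natCast_natAbs, abs_of_pos (by linarith)]; ring
  have hne : (T 4 3 5 (n ^ 2 - 1) (2 * n) (n ^ 2 + 1) 0 0).natAbs ≠ 0 := by
    intro h
    rw [h] at h00
    push_cast at h00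
    nlinarith
  obtain ⟨q, g, hq1, hq2, hg, hpq⟩ := exists_primitive _ hT hne
  refine ⟨q, ⟨hq1, hq2, 4, 3, 5, n ^ 2 - 1, 2 * n, n ^ 2 + 1, g, by norm_num, h2, hg, hpq⟩,
    ?_, ?_⟩
  · have hgz : ((g : ℤ)) ≠ 0 := by exact_mod_cast hg
    have hp00 := hpq 0 0
    have hp02 := hpq 0 2
    rw [hp00] at h00
    rw [hp02] at h02
    push_cast at h00 h02
    have : (g : ℤ) * (7 * ((4 * (n ^ 2 + 1)) * (q 0 2 : ℤ))) =
        g * (7 * ((5 * (n ^ 2 - 1)) * (q 0 0 : ℤ))) := by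
      linear_combination (28 * (n ^ 2 + 1)) * h02 - (35 * (n ^ 2 - 1)) * h00
    have := mul_left_cancel₀ hgz this
    linarith
  · intro h
    have hp00 := hpq 0 0
    rw [h, mul_zero] at hp00
    exact hne hp00

theorem infinite_primitive :
    {p : Fin 4 → Fin 4 → ℕ | IsRootTable p ∧ Primitive p ∧ FromTriples p}.Infinite := by
  choose f hf1 hf3 hf4 using family
  refine Set.infinite_of_injective_forall_mem (f := f) ?_ fun k => hf1 k
  intro k l hkl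
  have hk := hf3 k
  have hl := hf3 l
  rw [hkl] at hk
  have h0 : 5 * ((f l 0 0 : ℕ) : ℤ) ≠ 0 := mul_ne_zero (by norm_num) (by exact_mod_cast hf4 l)
  set K : ℤ := ((k : ℤ) + 6) ^ 2 with hK
  set L : ℤ := ((l : ℤ) + 6) ^ 2 with hL
  have h1 : (5 * (f l 0 0 : ℤ)) * ((K - 1) * (L + 1)) =
      (5 * (f l 0 0 : ℤ)) * ((L - 1) * (K + 1)) := by
    linear_combination (K + 1) * hl - (L + 1) * hk
  have h2 := mul_left_cancel₀ h0 h1
  have h3 : K = L := by nlinarith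
  have h4 : ((k : ℤ) + 6) = (l : ℤ) + 6 := by
    have hk0 : (0 : ℤ) ≤ (k : ℤ) + 6 := by positivity
    have hl0 : (0 : ℤ) ≤ (l : ℤ) + 6 := by positivity
    exact (sq_eq_sq₀ hk0 hl0).mp (by rw [← hK, ← hL, h3])
  exact_mod_cast (add_right_cancel h4)

theorem result :
    (∀ A B C X Y Z : ℤ, A ^ 2 + B ^ 2 = C ^ 2 → X ^ 2 + Y ^ 2 = Z ^ 2 → ∀ i j : Fin 4,
      (T A B C X Y Z i j) ^ 2 =
        ((T A B C X Y Z i 0) ^ 2 - (T A B C X Y Z 0 0) ^ 2) + (T A B C X Y Z 0 j) ^ 2) ∧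
    {p : Fin 4 → Fin 4 → ℕ | IsRootTable p ∧ Primitive p ∧ FromTriples p}.Infinite :=
  ⟨T_table, infinite_primitive⟩

end Pool.Agent.Results.MP_79d058_nt.TwoTriples
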